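import Pool.Agent.R497.EB.PartB
import Pool.Agent.R497.EB.Upper

/-!
# The discrepancy function inside an arbitrary small box

The sharp lower bound for the local discrepancy of `m` points holds, in measure, inside every box `Q`
with the logarithm of `m |Q|` in the place of the logarithm of `m`, uniformly in `Q` down to the boxes
with `m |Q| = 9 ^ d`, and it is not changed by adding functions of `d - 1` of the variables.
-/

set_option autoImplicit false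

namespace Pool.Agent.Results.MP_173de9_an.EveryBox

open MeasureTheory

/-- The local discrepancy `∏ x_j - Σ_μ λ_μ χ_{[0,x]}(ξ^μ)` of the points `ξ` with the weights `λ`. -/
noncomputable def localDisc {N d : ℕ} (lam : Fin N → ℝ) (ξ : Fin N → Fin d → ℝ) (x : Fin d → ℝ) : ℝ :=
  ∏ j, x j - ∑ μ : Fin N, lam μ * (Set.Icc (0 : Fin d → ℝ) x).indicator (fun _ => (1:ℝ)) (ξ μ)

/-- `g` is a sum of `d` measurable functions, the `k`-th of which does not depend on `x_k`. -/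
def FewerVars {d : ℕ} (g : (Fin d → ℝ) → ℝ) : Prop :=
  ∃ h : Fin d → (Fin d → ℝ) → ℝ, (∀ k, Measurable (h k)) ∧
    (∀ (k : Fin d) (x : Fin d → ℝ) (t : ℝ), h k (Function.update x k t) = h k x) ∧
    g = fun x => ∑ k, h k x

/-- The `L_q` mean of `f` over the set `Q`: the `L_q` norm with respect to the Lebesgue measure on `Q`
divided by its total mass `|Q|`. -/
noncomputable def meanOn {d : ℕ} (q : ENNReal) (Q : Set (Fin d → ℝ)) (f : (Fin d → ℝ) → ℝ) : ENNReal :=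
  eLpNorm f q ((volume Q)⁻¹ • volume.restrict Q)

theorem F_eq {N d : ℕ} (M : ℝ) (lam : Fin N → ℝ) (ξ : Fin N → Fin d → ℝ)
    (hξ : ∀ μ, ξ μ ∈ Set.Icc (0 : Fin d → ℝ) 1) (h : Fin d → (Fin d → ℝ) → ℝ) (x : Fin d → ℝ) :
    R497.EB.F Finset.univ (fun μ => M * lam μ) ξ M (fun k x => M * h k x) x =
      -(M * (localDisc lam ξ x - ∑ k, h k x)) := by
  unfold localDisc R497.EB.F
  have : ∀ μ, (Set.Icc (0 : Fin d → ℝ) x).indicator (fun _ => (1:ℝ)) (ξ μ) =
      (if ∀ i, ξ μ i ≤ x i then (1 : ℝ) else 0) := by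
    intro μ
    have hiff : ξ μ ∈ Set.Icc (0 : Fin d → ℝ) x ↔ ∀ i, ξ μ i ≤ x i :=
      ⟨fun h i => h.2 i, fun h => ⟨(hξ μ).1, h⟩⟩
    by_cases hx : ∀ i, ξ μ i ≤ x i
    · rw [if_pos hx, Set.indicator_of_mem (hiff.2 hx)]
    · rw [if_neg hx, Set.indicator_of_notMem (fun h => hx (hiff.1 h))]
  simp only [this]
  rw [← Finset.mul_sum]
  have h2 : ∑ μ, M * lam μ * (if ∀ i, ξ μ i ≤ x i then (1 : ℝ) else 0) =
      M * ∑ μ, lam μ * (if ∀ i, ξ μ i ≤ x i then (1 : ℝ) else 0) := by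
    rw [Finset.mul_sum]
    exact Finset.sum_congr rfl fun μ _ => by ring
  rw [h2]
  ring

theorem measurable_localDisc {N d : ℕ} (lam : Fin N → ℝ) (ξ : Fin N → Fin d → ℝ)
    (hξ : ∀ μ, ξ μ ∈ Set.Icc (0 : Fin d → ℝ) 1) : Measurable (localDisc lam ξ) := by
  have h1 : localDisc lam ξ = fun x => -(R497.EB.F Finset.univ lam ξ 1 (fun _ _ => 0) x) := by
    funext x
    have h2 := F_eq 1 lam ξ hξ (fun _ _ => 0) x
    simp only [one_mul, Finset.sum_const_zero, sub_zero, mul_zero] at h2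
    rw [h2, neg_neg]
  rw [h1]
  exact (R497.EB.measurable_F _ _ _ _ _ fun _ => measurable_const).neg

theorem measurable_fewer {d : ℕ} {g : (Fin d → ℝ) → ℝ} (hg : FewerVars g) : Measurable g := by
  obtain ⟨h, h1, -, rfl⟩ := hg
  exact Finset.measurable_fun_sum _ fun k _ => h1 k

/-- Arbitrary weights, boxes which do not contain many points. -/
theorem weighted (d : ℕ) (hd : 1 ≤ d) (K : ℝ) : ∃ c : ℝ, 0 < c ∧ ∀ M : ℝ, 0 < M → ∀ N : ℕ,
    ∀ (lam : Fin N → ℝ) (ξ : Fin N → Fin d → ℝ), (∀ μ, ξ μ ∈ Set.Icc (0 : Fin d → ℝ) 1) →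
    ∀ a b : Fin d → ℝ, (∀ i, a i < b i) → 2 ≤ M * ∏ i, (b i - a i) →
      (Nat.card {μ : Fin N // ∀ i, a i < ξ μ i ∧ ξ μ i ≤ b i} : ℝ) ≤ K * (M * ∏ i, (b i - a i)) →
    ∀ g : (Fin d → ℝ) → ℝ, FewerVars g →
      ENNReal.ofReal (c * ∏ i, (b i - a i)) ≤ volume {x : Fin d → ℝ | x ∈ Set.Icc a b ∧
        c * (Real.log (M * ∏ i, (b i - a i))) ^ (((d : ℝ) - 1) / 2) / M ≤
          |localDisc lam ξ x - g x|} := by
  classical
  obtain ⟨c, hc, H⟩ := R497.EB.partA d hd K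
  refine ⟨c, hc, fun M hM N lam ξ hξ a b hab hV hcard g hg => ?_⟩
  obtain ⟨h, h1, h2, rfl⟩ := hg
  have hcd : ((R497.EB.ins Finset.univ ξ a b).card : ℝ) ≤ K * (M * ∏ i, (b i - a i)) := by
    refine le_trans (le_of_eq ?_) hcard
    rw [Nat.card_eq_fintype_card, Fintype.card_subtype]
    unfold R497.EB.ins
    congr 2
  refine (H M hM (Fin N) Finset.univ (fun μ => M * lam μ) ξ a b hab hV hcd
    (fun k x => M * h k x) (fun k => (h1 k).const_mul _) (fun k x t => by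
      simp only [h2 k x t])).trans ?_
  apply measure_mono
  rintro x ⟨hx1, hx2⟩
  refine ⟨hx1, ?_⟩
  rw [F_eq M lam ξ hξ h x, abs_neg, abs_mul, abs_of_pos hM] at hx2
  rw [div_le_iff₀' hM]
  exact hx2

/-- Equal weights, every box. -/
theorem every_box (d : ℕ) (hd : 1 ≤ d) : ∃ c : ℝ, 0 < c ∧ ∀ M : ℝ, 0 < M → ∀ N : ℕ,
    ∀ ξ : Fin N → Fin d → ℝ, (∀ μ, ξ μ ∈ Set.Icc (0 : Fin d → ℝ) 1) →
    ∀ a b : Fin d → ℝ, (∀ i, a i < b i) → (9 : ℝ) ^ d ≤ M * ∏ i, (b i - a i) →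
    ∀ g : (Fin d → ℝ) → ℝ, FewerVars g →
      ENNReal.ofReal (c * ∏ i, (b i - a i)) ≤ volume {x : Fin d → ℝ | x ∈ Set.Icc a b ∧
        c * (Real.log (M * ∏ i, (b i - a i))) ^ (((d : ℝ) - 1) / 2) / M ≤
          |localDisc (fun _ => 1 / M) ξ x - g x|} := by
  classical
  obtain ⟨c, hc, H⟩ := R497.EB.partB d hd
  refine ⟨c, hc, fun M hM N ξ hξ a b hab hV g hg => ?_⟩
  obtain ⟨h, h1, h2, rfl⟩ := hg
  refine (H M hM (Fin N) Finset.univ ξ a b hab hV
    (fun k x => M * h k x) (fun k => (h1 k).const_mul _) (fun k x t => by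
      simp only [h2 k x t])).trans ?_
  apply measure_mono
  rintro x ⟨hx1, hx2⟩
  refine ⟨hx1, ?_⟩
  have h3 := F_eq M (fun _ => 1 / M) ξ hξ h x
  have h4 : (fun _ : Fin N => M * (1 / M)) = fun _ => 1 := by
    funext _
    field_simp
  rw [h4] at h3
  rw [h3, abs_neg, abs_mul, abs_of_pos hM] at hx2
  rw [div_le_iff₀' hM]
  exact hx2

/-- From the measure of large values to the norm. -/
theorem norm_ge {α : Type} [MeasurableSpace α] (ν : Measure α) {f : α → ℝ} {c θ : ℝ} (hc : 0 < c)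
    (hθ : 0 ≤ θ) (hf : AEStronglyMeasurable f ν) (h : ENNReal.ofReal c ≤ ν {x | θ ≤ |f x|})
    {p : ENNReal} (hp0 : p ≠ 0) :
    ENNReal.ofReal (θ * min 1 (c ^ (1 / p.toReal))) ≤ eLpNorm f p ν := by
  by_cases hp1 : p = ⊤
  · subst hp1
    refine (ENNReal.ofReal_le_ofReal (mul_le_of_le_one_right hθ (min_le_left _ _))).trans ?_
    rw [eLpNorm_exponent_top]
    by_contra hcon
    push Not at hcon
    have h1 : ∀ᵐ x ∂ν, ‖f x‖ₑ ≤ eLpNormEssSup f ν := ae_le_eLpNormEssSup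
    have h2 : ν {x | θ ≤ |f x|} = 0 := by
      refine measure_mono_null ?_ (ae_iff.1 h1)
      intro x hx
      simp only [Set.mem_ofPred_eq] at hx ⊢
      rw [not_le]
      refine hcon.trans_le ?_
      rw [← ofReal_norm, Real.norm_eq_abs]
      exact ENNReal.ofReal_le_ofReal hx
    rw [h2] at h
    have := ENNReal.ofReal_pos.2 hc
    exact absurd h (not_le.2 this)
  · have hpos : 0 < p.toReal := ENNReal.toReal_pos hp0 hp1
    refine (ENNReal.ofReal_le_ofReal (mul_le_mul_of_nonneg_left (min_le_right _ _) hθ)).trans ?_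
    refine le_trans ?_ (pow_mul_meas_ge_le_eLpNorm _ hp0 hp1 hf (ENNReal.ofReal θ ^ p.toReal))
    rw [ENNReal.mul_rpow_of_nonneg _ _ (by positivity), ← ENNReal.rpow_mul,
      mul_one_div_cancel hpos.ne', ENNReal.rpow_one, ENNReal.ofReal_mul hθ,
      ← ENNReal.ofReal_rpow_of_pos hc]
    gcongr
    refine h.trans (measure_mono fun x hx => ?_)
    show ENNReal.ofReal θ ^ p.toReal ≤ ‖f x‖ₑ ^ p.toReal
    rw [← ofReal_norm, Real.norm_eq_abs]
    gcongr
    exact hx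

/-- The means over boxes. -/
theorem means (d : ℕ) (hd : 1 ≤ d) (q : ENNReal) (hq : 0 < q) : ∃ c : ℝ, 0 < c ∧
    ∀ M : ℝ, 0 < M → ∀ N : ℕ,
    ∀ ξ : Fin N → Fin d → ℝ, (∀ μ, ξ μ ∈ Set.Icc (0 : Fin d → ℝ) 1) →
    ∀ a b : Fin d → ℝ, (∀ i, a i < b i) → (9 : ℝ) ^ d ≤ M * ∏ i, (b i - a i) →
    ∀ g : (Fin d → ℝ) → ℝ, FewerVars g →
      ENNReal.ofReal (c * (Real.log (M * ∏ i, (b i - a i))) ^ (((d : ℝ) - 1) / 2) / M) ≤
        meanOn q (Set.Icc a b) (fun x => localDisc (fun _ => 1 / M) ξ x - g x) := by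
  obtain ⟨c, hc, H⟩ := every_box d hd
  refine ⟨c * min 1 (c ^ (1 / q.toReal)), by positivity, fun M hM N ξ hξ a b hab hV g hg => ?_⟩
  have h1 := H M hM N ξ hξ a b hab hV g hg
  have hV1 : 1 ≤ M * ∏ i, (b i - a i) := le_trans (one_le_pow₀ (by norm_num)) hV
  have hps : 0 < ∏ i, (b i - a i) := Finset.prod_pos fun i _ => sub_pos.2 (hab i)
  have hlog : 0 ≤ Real.log (M * ∏ i, (b i - a i)) := Real.log_nonneg hV1
  set θ : ℝ := c * (Real.log (M * ∏ i, (b i - a i))) ^ (((d : ℝ) - 1) / 2) / M with hθ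
  have hθ0 : 0 ≤ θ := by positivity
  have hmeas : Measurable (fun x => localDisc (fun _ => 1 / M) ξ x - g x) :=
    (measurable_localDisc _ ξ hξ).sub (measurable_fewer hg)
  have hvol : volume (Set.Icc a b) = ENNReal.ofReal (∏ i, (b i - a i)) := by
    rw [Real.volume_Icc_pi, ENNReal.ofReal_prod_of_nonneg fun i _ => (sub_pos.2 (hab i)).le]
  have h2 := norm_ge ((volume (Set.Icc a b))⁻¹ • volume.restrict (Set.Icc a b)) hc hθ0
    hmeas.aestronglyMeasurable (p := q) (by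
      rw [Measure.smul_apply, Measure.restrict_apply (measurableSet_le measurable_const hmeas.abs),
        smul_eq_mul, hvol]
      have h3 : ({x | θ ≤ |localDisc (fun _ => 1 / M) ξ x - g x|} ∩ Set.Icc a b) =
          {x : Fin d → ℝ | x ∈ Set.Icc a b ∧ θ ≤ |localDisc (fun _ => 1 / M) ξ x - g x|} := by
        ext x
        constructor
        · rintro ⟨a, b⟩; exact ⟨b, a⟩
        · rintro ⟨a, b⟩; exact ⟨b, a⟩
      rw [h3]
      calc ENNReal.ofReal c = (ENNReal.ofReal (∏ i, (b i - a i)))⁻¹ *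
            ENNReal.ofReal (c * ∏ i, (b i - a i)) := by
            rw [ENNReal.ofReal_mul hc.le, mul_comm (ENNReal.ofReal c), ← mul_assoc,
              ENNReal.inv_mul_cancel (ENNReal.ofReal_pos.2 hps).ne' ENNReal.ofReal_ne_top, one_mul]
        _ ≤ _ := by gcongr) hq.ne'
  unfold meanOn
  refine le_trans (le_of_eq ?_) h2
  rw [hθ]
  congr 1
  ring

/-- The upper bound. -/
theorem upper (d : ℕ) (hd : 1 ≤ d) : ∃ C : ℝ, 0 < C ∧ ∀ m : ℕ, 2 ≤ m →
    ∀ Q : Set (Fin d → ℝ), MeasurableSet Q → Q ⊆ Set.Icc 0 1 → volume Q ≠ 0 →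
      ∃ ξ : Fin m → Fin d → ℝ, (∀ μ, ξ μ ∈ Set.Icc (0 : Fin d → ℝ) 1) ∧
        ∀ q : ENNReal, q ≤ 2 → meanOn q Q (localDisc (fun _ => 1 / (m : ℝ)) ξ) ≤
          ENNReal.ofReal (C * (Real.log m) ^ (((d : ℝ) - 1) / 2) / m) := by
  obtain ⟨C, hC, H⟩ := R497.EB.upper_two d hd
  refine ⟨C, hC, fun m hm Q hQ hQI hQ0 => ?_⟩
  have hfin : volume Q ≠ ⊤ := by
    refine ne_top_of_le_ne_top ?_ (measure_mono hQI)
    rw [Real.volume_Icc_pi]
    simp
  have hprob : IsProbabilityMeasure ((volume Q)⁻¹ • volume.restrict Q) := by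
    constructor
    rw [Measure.smul_apply, Measure.restrict_apply_univ, smul_eq_mul]
    exact ENNReal.inv_mul_cancel hQ0 hfin
  obtain ⟨ξ, hξ, hb⟩ := H m hm ((volume Q)⁻¹ • volume.restrict Q) hprob
    (Measure.ae_smul_measure ((ae_restrict_mem hQ).mono fun x hx => hQI hx) _)
  refine ⟨ξ, hξ, fun q hq => ?_⟩
  unfold meanOn
  refine (eLpNorm_le_eLpNorm_of_exponent_le hq
    (measurable_localDisc _ ξ hξ).aestronglyMeasurable).trans (le_trans (le_of_eq ?_) hb)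
  congr 1
  funext x
  unfold localDisc
  rw [← Finset.mul_sum]
  rfl

/-- **The discrepancy inside small boxes**, in every dimension `d ≥ 1`.
(1) There is `c > 0` such that for every real `M > 0`, every number `N` of points of `[0,1]^d`, every
box `Q = [a,b]` with `M |Q| ≥ 9 ^ d` and every sum `g` of functions of fewer variables, the local
discrepancy of the points with all weights `1 / M`, minus `g`, is at least
`c (ln (M |Q|))^((d-1)/2) / M` in absolute value on a part of `Q` of measure at least `c |Q|`.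
(2) For every `0 < q ≤ ∞` there is `c > 0` such that in the same situation the `L_q` mean over `Q` of
this difference is at least `c (ln (M |Q|))^((d-1)/2) / M`.
(3) For every `K` there is `c > 0` such that (1) holds for arbitrary real weights and for every box `Q`
with `M |Q| ≥ 2` which contains at most `K M |Q|` of the points.
(4) There is `C > 0` such that for every `m ≥ 2` and every measurable `Q ⊆ [0,1]^d` of positive measure
there are `m` points of `[0,1]^d` such that the `L_q` means over `Q`, `q ≤ 2`, of their local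
discrepancy (with the weights `1 / m`) are at most `C (ln m)^((d-1)/2) / m`. -/
theorem result (d : ℕ) (hd : 1 ≤ d) :
    (∃ c : ℝ, 0 < c ∧ ∀ M : ℝ, 0 < M → ∀ N : ℕ,
      ∀ ξ : Fin N → Fin d → ℝ, (∀ μ, ξ μ ∈ Set.Icc (0 : Fin d → ℝ) 1) →
      ∀ a b : Fin d → ℝ, (∀ i, a i < b i) → (9 : ℝ) ^ d ≤ M * ∏ i, (b i - a i) →
      ∀ g : (Fin d → ℝ) → ℝ, FewerVars g →
        ENNReal.ofReal (c * ∏ i, (b i - a i)) ≤ volume {x : Fin d → ℝ | x ∈ Set.Icc a b ∧
          c * (Real.log (M * ∏ i, (b i - a i))) ^ (((d : ℝ) - 1) / 2) / M ≤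
            |localDisc (fun _ => 1 / M) ξ x - g x|}) ∧
    (∀ q : ENNReal, 0 < q → ∃ c : ℝ, 0 < c ∧ ∀ M : ℝ, 0 < M → ∀ N : ℕ,
      ∀ ξ : Fin N → Fin d → ℝ, (∀ μ, ξ μ ∈ Set.Icc (0 : Fin d → ℝ) 1) →
      ∀ a b : Fin d → ℝ, (∀ i, a i < b i) → (9 : ℝ) ^ d ≤ M * ∏ i, (b i - a i) →
      ∀ g : (Fin d → ℝ) → ℝ, FewerVars g →
        ENNReal.ofReal (c * (Real.log (M * ∏ i, (b i - a i))) ^ (((d : ℝ) - 1) / 2) / M) ≤
          meanOn q (Set.Icc a b) (fun x => localDisc (fun _ => 1 / M) ξ x - g x)) ∧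
    (∀ K : ℝ, ∃ c : ℝ, 0 < c ∧ ∀ M : ℝ, 0 < M → ∀ N : ℕ,
      ∀ (lam : Fin N → ℝ) (ξ : Fin N → Fin d → ℝ), (∀ μ, ξ μ ∈ Set.Icc (0 : Fin d → ℝ) 1) →
      ∀ a b : Fin d → ℝ, (∀ i, a i < b i) → 2 ≤ M * ∏ i, (b i - a i) →
        (Nat.card {μ : Fin N // ∀ i, a i < ξ μ i ∧ ξ μ i ≤ b i} : ℝ) ≤
          K * (M * ∏ i, (b i - a i)) →
      ∀ g : (Fin d → ℝ) → ℝ, FewerVars g →
        ENNReal.ofReal (c * ∏ i, (b i - a i)) ≤ volume {x : Fin d → ℝ | x ∈ Set.Icc a b ∧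
          c * (Real.log (M * ∏ i, (b i - a i))) ^ (((d : ℝ) - 1) / 2) / M ≤
            |localDisc lam ξ x - g x|}) ∧
    (∃ C : ℝ, 0 < C ∧ ∀ m : ℕ, 2 ≤ m →
      ∀ Q : Set (Fin d → ℝ), MeasurableSet Q → Q ⊆ Set.Icc 0 1 → volume Q ≠ 0 →
        ∃ ξ : Fin m → Fin d → ℝ, (∀ μ, ξ μ ∈ Set.Icc (0 : Fin d → ℝ) 1) ∧
          ∀ q : ENNReal, q ≤ 2 → meanOn q Q (localDisc (fun _ => 1 / (m : ℝ)) ξ) ≤
            ENNReal.ofReal (C * (Real.log m) ^ (((d : ℝ) - 1) / 2) / m)) :=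
  ⟨every_box d hd, means d hd, weighted d hd, upper d hd⟩

end Pool.Agent.Results.MP_173de9_an.EveryBox
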