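import Pool.Agent.R476.DM.Upper
import Pool.Agent.R476.DM.Zero
import Pool.Agent.H730R2.LU.Fin

/-!
# The `L_1` norm of the discrepancy function modulo functions of fewer variables, with applications

The sharp lower bound `(ln m)^((d-1)/2) / m` for the local discrepancy, in measure, is not changed when
arbitrary functions of `d - 1` of the variables are added to it. Two applications, in every dimension
`d ≥ 2`:

* the optimal `L_1` extreme discrepancy (boxes which are not anchored at the origin) has the order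
  `(ln m)^((d-1)/2) / m`;
* the optimal error of cubature formulas with `m` nodes for the functions with bounded mixed
  derivative has the order `(ln m)^((d-1)/2) / m`, with equal and with arbitrary real weights: for the
  functions `∫_{[x,1]} φ`, `|φ| ≤ 1`, on the cube (by duality this is the optimal `L_1` star
  discrepancy), for the functions of this class which vanish on the boundary of the cube, and for the
  periodic functions `φ * F`, `|φ| ≤ 1`, where `F` is the product of the kernels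
  `1 + 2 ∑ sin (2 π k t) / k`.
-/

set_option autoImplicit false

namespace Pool.Agent.Results.MP_173de9_an.ModuloFewerVariables

open MeasureTheory

/-- The local discrepancy `∏ x_j - Σ_μ λ_μ χ_{[0,x]}(ξ^μ)` of the points `ξ` with the weights `λ`. -/
noncomputable def localDisc {m d : ℕ} (lam : Fin m → ℝ) (ξ : Fin m → Fin d → ℝ) (x : Fin d → ℝ) : ℝ :=
  ∏ j, x j - ∑ μ : Fin m, lam μ * (Set.Icc (0 : Fin d → ℝ) x).indicator (fun _ => (1:ℝ)) (ξ μ)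

/-- `g` is a sum of `d` measurable functions, the `k`-th of which does not depend on `x_k`. -/
def FewerVars {d : ℕ} (g : (Fin d → ℝ) → ℝ) : Prop :=
  ∃ h : Fin d → (Fin d → ℝ) → ℝ, (∀ k, Measurable (h k)) ∧
    (∀ (k : Fin d) (x : Fin d → ℝ) (t : ℝ), h k (Function.update x k t) = h k x) ∧
    g = fun x => ∑ k, h k x

/-- The discrepancy `∏ (v_j - u_j) - Σ_μ λ_μ χ_{[u,v)}(ξ^μ)` of the box `[u,v)`. -/
noncomputable def boxDisc {m d : ℕ} (lam : Fin m → ℝ) (ξ : Fin m → Fin d → ℝ) (u v : Fin d → ℝ) : ℝ :=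
  ∏ j, (v j - u j) -
    ∑ μ : Fin m, lam μ * (Set.pi Set.univ fun j => Set.Ico (u j) (v j)).indicator
      (fun _ => (1:ℝ)) (ξ μ)

/-- The pairs `(u,v)` with `0 ≤ u ≤ v ≤ 1` in every coordinate. -/
def Boxes (d : ℕ) : Set ((Fin d → ℝ) × (Fin d → ℝ)) :=
  {p | p.1 ∈ Set.Icc (0 : Fin d → ℝ) 1 ∧ p.2 ∈ Set.Icc (0 : Fin d → ℝ) 1 ∧ p.1 ≤ p.2}

/-- The `L_1` extreme discrepancy `∫∫_{u ≤ v} |boxDisc(u,v)| du dv`. -/
noncomputable def extreme {m d : ℕ} (lam : Fin m → ℝ) (ξ : Fin m → Fin d → ℝ) : ENNReal :=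
  ∫⁻ p in Boxes d, ‖boxDisc lam ξ p.1 p.2‖ₑ

/-- The kernel `1 + 2 π (1/2 - {t})`; it is equal to `1 + 2 ∑_{k ≥ 1} sin (2 π k t) / k` if `t` is not
an integer. -/
noncomputable def kernel (t : ℝ) : ℝ := 1 + 2 * Real.pi * (1 / 2 - Int.fract t)

/-- The periodic class: the convolutions `f(x) = ∫_{[0,1]^d} φ(y) ∏ kernel(x_i - y_i) dy` with
`|φ| ≤ 1`. -/
def PeriodicClass (d : ℕ) : Set ((Fin d → ℝ) → ℝ) :=
  {f | ∃ φ : (Fin d → ℝ) → ℝ, Measurable φ ∧ (∀ y, |φ y| ≤ 1) ∧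
    f = fun x => ∫ y in Set.Icc (0 : Fin d → ℝ) 1, φ y * ∏ i, kernel (x i - y i)}

/-- The class on the cube: the functions `f(x) = ∫_{[x,1]} φ` with `|φ| ≤ 1`. -/
def CubeClass (d : ℕ) : Set ((Fin d → ℝ) → ℝ) :=
  {f | ∃ φ : (Fin d → ℝ) → ℝ, Measurable φ ∧ (∀ y, |φ y| ≤ 1) ∧
    f = fun x => ∫ y in Set.Icc x 1, φ y}

/-- The class with zero boundary values: the functions `f(x) = ∫_{[x,1]} φ` with `|φ| ≤ 1` and
`∫_0^1 φ dx_k = 0` for every `k`. -/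
def ZeroClass (d : ℕ) : Set ((Fin d → ℝ) → ℝ) :=
  {f | ∃ φ : (Fin d → ℝ) → ℝ, Measurable φ ∧ (∀ y, |φ y| ≤ 1) ∧
    (∀ (k : Fin d) (y : Fin d → ℝ), ∫ t in Set.Icc (0 : ℝ) 1, φ (Function.update y k t) = 0) ∧
    f = fun x => ∫ y in Set.Icc x 1, φ y}

/-- The error of a cubature formula on a class: the supremum over `f` in the class of
`|Σ_μ λ_μ f(ξ^μ) - ∫_{[0,1]^d} f|`. -/
noncomputable def cubError {m d : ℕ} (W : Set ((Fin d → ℝ) → ℝ)) (lam : Fin m → ℝ)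
    (ξ : Fin m → Fin d → ℝ) : ENNReal :=
  ⨆ f ∈ W, ENNReal.ofReal |∑ μ, lam μ * f (ξ μ) - ∫ x in Set.Icc (0 : Fin d → ℝ) 1, f x|

/-- The optimal error with `m` nodes in `[0,1]^d` and arbitrary real weights. -/
noncomputable def optError {d : ℕ} (W : Set ((Fin d → ℝ) → ℝ)) (m : ℕ) : ENNReal :=
  ⨅ (lam : Fin m → ℝ) (ξ : Fin m → Fin d → ℝ) (_ : ∀ μ, ξ μ ∈ Set.Icc (0 : Fin d → ℝ) 1),
    cubError W lam ξ

/-- The optimal error with `m` nodes in `[0,1]^d` and all weights equal to `1 / m`. -/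
noncomputable def optErrorEqual {d : ℕ} (W : Set ((Fin d → ℝ) → ℝ)) (m : ℕ) : ENNReal :=
  ⨅ (ξ : Fin m → Fin d → ℝ) (_ : ∀ μ, ξ μ ∈ Set.Icc (0 : Fin d → ℝ) 1),
    cubError W (fun _ => 1 / (m : ℝ)) ξ

theorem localDisc_eq {N d : ℕ} (M : ℝ) (lam : Fin N → ℝ) (ξ : Fin N → Fin d → ℝ)
    (hξ : ∀ μ, ξ μ ∈ Set.Icc (0 : Fin d → ℝ) 1) (h : Fin d → (Fin d → ℝ) → ℝ) (x : Fin d → ℝ) :
    R476.DM.FF Finset.univ (fun μ => M * lam μ) (fun μ i t => if ξ μ i ≤ t then (1 : ℝ) else 0) M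
      (fun k x => M * h k x) x = -(M * (localDisc lam ξ x - ∑ k, h k x)) := by
  unfold localDisc R476.DM.FF
  have : ∀ μ, (Set.Icc (0 : Fin d → ℝ) x).indicator (fun _ => (1:ℝ)) (ξ μ) =
      ∏ i, (if ξ μ i ≤ x i then (1 : ℝ) else 0) := by
    intro μ
    rw [Finset.prod_ite_zero]
    have hiff : ξ μ ∈ Set.Icc (0 : Fin d → ℝ) x ↔ ∀ i ∈ Finset.univ, ξ μ i ≤ x i :=
      ⟨fun h i _ => h.2 i, fun h => ⟨(hξ μ).1, fun i => h i (Finset.mem_univ i)⟩⟩
    by_cases hx : ∀ i ∈ Finset.univ, ξ μ i ≤ x i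
    · rw [if_pos hx, Set.indicator_of_mem (hiff.2 hx)]
      simp
    · rw [if_neg hx, Set.indicator_of_notMem (fun h => hx (hiff.1 h))]
  simp only [this]
  rw [← Finset.mul_sum]
  have h2 : ∑ μ, M * lam μ * ∏ i, (if ξ μ i ≤ x i then (1 : ℝ) else 0) =
      M * ∑ μ, lam μ * ∏ i, (if ξ μ i ≤ x i then (1 : ℝ) else 0) := by
    rw [Finset.mul_sum]
    exact Finset.sum_congr rfl fun μ _ => by ring
  rw [h2]
  ring

theorem boxDisc_eq {N d : ℕ} (M : ℝ) (lam : Fin N → ℝ) (ξ : Fin N → Fin d → ℝ)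
    (u v : Fin d → ℝ) :
    R476.DM.BD Finset.univ (fun μ => M * lam μ) ξ M u v = -(M * boxDisc lam ξ u v) := by
  unfold boxDisc R476.DM.BD
  have : ∀ μ, (Set.pi Set.univ fun j => Set.Ico (u j) (v j)).indicator (fun _ => (1:ℝ)) (ξ μ) =
      if ∀ i, u i ≤ ξ μ i ∧ ξ μ i < v i then (1 : ℝ) else 0 := by
    intro μ
    by_cases hx : ∀ i, u i ≤ ξ μ i ∧ ξ μ i < v i
    · rw [if_pos hx, Set.indicator_of_mem]
      exact fun i _ => hx i
    · rw [if_neg hx, Set.indicator_of_notMem]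
      exact fun h => hx fun i => h i (Set.mem_univ i)
  simp only [this]
  have h2 : ∑ μ, M * lam μ * (if ∀ i, u i ≤ ξ μ i ∧ ξ μ i < v i then (1 : ℝ) else 0) =
      M * ∑ μ, lam μ * (if ∀ i, u i ≤ ξ μ i ∧ ξ μ i < v i then (1 : ℝ) else 0) := by
    rw [Finset.mul_sum]
    exact Finset.sum_congr rfl fun μ _ => by ring
  rw [h2]
  ring

/-- The bound in measure. -/
theorem in_measure (d : ℕ) (hd : 1 ≤ d) (K : ℝ) : ∃ c : ℝ, 0 < c ∧ ∀ m : ℕ, 2 ≤ m →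
    ∀ N : ℕ, (N : ℝ) ≤ K * m → ∀ (lam : Fin N → ℝ) (ξ : Fin N → Fin d → ℝ),
      (∀ μ, ξ μ ∈ Set.Icc (0 : Fin d → ℝ) 1) → ∀ g : (Fin d → ℝ) → ℝ, FewerVars g →
      ENNReal.ofReal c ≤ volume {x : Fin d → ℝ | x ∈ Set.Icc (0 : Fin d → ℝ) 1 ∧
        c * (Real.log m) ^ (((d : ℝ) - 1) / 2) / m ≤ |localDisc lam ξ x - g x|} := by
  obtain ⟨ε, hε, c, hc, H⟩ := R476.DM.measure_mod d hd K
  refine ⟨min ε c, lt_min hε hc, fun m hm N hN lam ξ hξ g hg => ?_⟩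
  obtain ⟨h, h1, h2, rfl⟩ := hg
  have hm2 : (2 : ℝ) ≤ m := by exact_mod_cast hm
  have hm0 : (0 : ℝ) < m := by linarith
  have hL : 0 ≤ (Real.log m) ^ (((d : ℝ) - 1) / 2) :=
    Real.rpow_nonneg (Real.log_nonneg (by linarith)) _
  refine (ENNReal.ofReal_le_ofReal (min_le_left ε c)).trans ((H m hm2 (Fin N) Finset.univ
    (fun μ => m * lam μ) ξ (fun μ i t => if ξ μ i ≤ t then (1 : ℝ) else 0) (by simpa using hN)
    (fun μ i => Measurable.ite measurableSet_Ici measurable_const measurable_const)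
    (fun μ _ i s t hs ht => by rw [if_neg (not_le.2 hs), if_neg (not_le.2 ht)])
    (fun μ _ i s t hs ht => by rw [if_pos hs.le, if_pos ht.le])
    (fun k x => m * h k x) (fun k => (h1 k).const_mul _) (fun k x t => by
      simp only [h2 k x t])).trans ?_)
  apply measure_mono
  rintro x ⟨hx1, hx2⟩
  refine ⟨hx1, ?_⟩
  rw [localDisc_eq (m : ℝ) lam ξ hξ h x, abs_neg, abs_mul, abs_of_pos hm0] at hx2
  rw [div_le_iff₀' hm0]
  refine le_trans ?_ hx2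
  gcongr
  exact min_le_right _ _

/-- The extreme discrepancy: lower bound, in measure. -/
theorem box_measure (d : ℕ) (hd : 1 ≤ d) (K : ℝ) : ∃ c : ℝ, 0 < c ∧ ∀ m : ℕ, 2 ≤ m →
    ∀ N : ℕ, (N : ℝ) ≤ K * m → ∀ (lam : Fin N → ℝ) (ξ : Fin N → Fin d → ℝ),
      ENNReal.ofReal c ≤ volume {p : (Fin d → ℝ) × (Fin d → ℝ) | p ∈ Boxes d ∧
        c * (Real.log m) ^ (((d : ℝ) - 1) / 2) / m ≤ |boxDisc lam ξ p.1 p.2|} := by
  obtain ⟨c, hc, H⟩ := R476.DM.extr_measure d hd K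
  refine ⟨c, hc, fun m hm N hN lam ξ => ?_⟩
  have hm2 : (2 : ℝ) ≤ m := by exact_mod_cast hm
  have hm0 : (0 : ℝ) < m := by linarith
  refine (H m hm2 (Fin N) Finset.univ (fun μ => m * lam μ) ξ (by simpa using hN)).trans ?_
  apply measure_mono
  rintro p ⟨hx1, hx2⟩
  refine ⟨hx1, ?_⟩
  simp only [Set.mem_ofPred_eq] at hx2
  rw [boxDisc_eq (m : ℝ) lam ξ p.1 p.2, abs_neg, abs_mul, abs_of_pos hm0] at hx2
  rw [div_le_iff₀' hm0]
  exact hx2

theorem measurable_boxDisc {m d : ℕ} (lam : Fin m → ℝ) (ξ : Fin m → Fin d → ℝ) :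
    Measurable (fun p : (Fin d → ℝ) × (Fin d → ℝ) => boxDisc lam ξ p.1 p.2) := by
  have h1 : (fun p : (Fin d → ℝ) × (Fin d → ℝ) => boxDisc lam ξ p.1 p.2) = fun p =>
      -(R476.DM.BD Finset.univ lam ξ 1 p.1 p.2) := by
    funext p
    have h2 := boxDisc_eq 1 lam ξ p.1 p.2
    simp only [one_mul] at h2
    rw [h2, neg_neg]
  rw [h1]
  exact (R476.DM.measurable_BD _ _ _ _).neg

/-- The extreme discrepancy: lower bound, in `L_1`. -/
theorem extreme_lower (d : ℕ) (hd : 1 ≤ d) (K : ℝ) : ∃ c : ℝ, 0 < c ∧ ∀ m : ℕ, 2 ≤ m →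
    ∀ N : ℕ, (N : ℝ) ≤ K * m → ∀ (lam : Fin N → ℝ) (ξ : Fin N → Fin d → ℝ),
      ENNReal.ofReal (c * (Real.log m) ^ (((d : ℝ) - 1) / 2) / m) ≤ extreme lam ξ := by
  obtain ⟨c, hc, H⟩ := box_measure d hd K
  refine ⟨c * c, by positivity, fun m hm N hN lam ξ => ?_⟩
  have hm2 : (2 : ℝ) ≤ m := by exact_mod_cast hm
  have hlog : 0 ≤ Real.log m := Real.log_nonneg (by linarith)
  have h1 := H m hm N hN lam ξ
  set θ : ℝ := c * (Real.log m) ^ (((d : ℝ) - 1) / 2) / m with hθ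
  have hθ0 : 0 ≤ θ := by positivity
  have hA : MeasurableSet {p : (Fin d → ℝ) × (Fin d → ℝ) | p ∈ Boxes d ∧
      θ ≤ |boxDisc lam ξ p.1 p.2|} :=
    (R476.DM.measurableSet_corners d).inter
      (measurableSet_le measurable_const (measurable_boxDisc lam ξ).abs)
  unfold extreme
  calc ENNReal.ofReal (c * c * (Real.log m) ^ (((d : ℝ) - 1) / 2) / m)
      = ENNReal.ofReal θ * ENNReal.ofReal c := by
        rw [← ENNReal.ofReal_mul hθ0, hθ]
        congr 1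
        ring
    _ ≤ ENNReal.ofReal θ * volume {p : (Fin d → ℝ) × (Fin d → ℝ) | p ∈ Boxes d ∧
          θ ≤ |boxDisc lam ξ p.1 p.2|} := by gcongr
    _ = ∫⁻ _ in {p : (Fin d → ℝ) × (Fin d → ℝ) | p ∈ Boxes d ∧
          θ ≤ |boxDisc lam ξ p.1 p.2|}, ENNReal.ofReal θ := by rw [setLIntegral_const]
    _ ≤ ∫⁻ p in {p : (Fin d → ℝ) × (Fin d → ℝ) | p ∈ Boxes d ∧
          θ ≤ |boxDisc lam ξ p.1 p.2|}, ‖boxDisc lam ξ p.1 p.2‖ₑ := by
        apply setLIntegral_mono' hA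
        intro p hp
        rw [← ofReal_norm, Real.norm_eq_abs]
        exact ENNReal.ofReal_le_ofReal hp.2
    _ ≤ ∫⁻ p in Boxes d, ‖boxDisc lam ξ p.1 p.2‖ₑ := lintegral_mono_set fun p hp => hp.1

/-- The extreme discrepancy: upper bound. -/
theorem extreme_upper (d : ℕ) (hd : 2 ≤ d) : ∃ C : ℝ, 0 < C ∧ ∀ m : ℕ, 2 ≤ m →
    ∃ ξ : Fin m → Fin d → ℝ, (∀ μ, ξ μ ∈ Set.Icc (0 : Fin d → ℝ) 1) ∧
      extreme (fun _ => 1 / (m : ℝ)) ξ ≤
        ENNReal.ofReal (C * (Real.log m) ^ (((d : ℝ) - 1) / 2) / m) := by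
  obtain ⟨C, hC, H⟩ := R476.DM.extr_upper d hd
  refine ⟨C, hC, fun m hm => ?_⟩
  obtain ⟨ξ, h1, h2⟩ := H m hm
  refine ⟨ξ, fun μ => ⟨fun i => (h1 μ i).1, fun i => (h1 μ i).2.le⟩, ?_⟩
  have hm0 : (0 : ℝ) < m := by
    have : (2 : ℝ) ≤ m := by exact_mod_cast hm
    linarith
  have h3 : ∀ p : (Fin d → ℝ) × (Fin d → ℝ), ‖boxDisc (fun _ => 1 / (m : ℝ)) ξ p.1 p.2‖ₑ =
      ENNReal.ofReal (1 / m) * ‖R476.DM.BD Finset.univ (fun _ => 1) ξ m p.1 p.2‖ₑ := by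
    intro p
    have h4 := boxDisc_eq (m : ℝ) (fun _ => 1 / (m : ℝ)) ξ p.1 p.2
    have h5 : (fun _ : Fin m => (m : ℝ) * (1 / (m : ℝ))) = fun _ => 1 := by
      funext _
      field_simp
    rw [h5] at h4
    rw [h4, ← ofReal_norm, ← ofReal_norm, Real.norm_eq_abs, Real.norm_eq_abs, abs_neg, abs_mul,
      abs_of_pos hm0, ← ENNReal.ofReal_mul (by positivity)]
    congr 1
    field_simp
  unfold extreme
  calc ∫⁻ p in Boxes d, ‖boxDisc (fun _ => 1 / (m : ℝ)) ξ p.1 p.2‖ₑ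
      = ENNReal.ofReal (1 / m) *
        ∫⁻ p in Boxes d, ‖R476.DM.BD Finset.univ (fun _ => 1) ξ m p.1 p.2‖ₑ := by
        simp only [h3]
        exact lintegral_const_mul _ (R476.DM.measurable_BD _ _ _ _).enorm
    _ ≤ ENNReal.ofReal (1 / m) * ENNReal.ofReal (C * (Real.log m) ^ (((d : ℝ) - 1) / 2)) :=
        mul_le_mul_right h2 _
    _ = _ := by
        rw [← ENNReal.ofReal_mul (by positivity)]
        congr 1
        ring

theorem disc_eq {m d : ℕ} (lam : Fin m → ℝ) (ξ : Fin m → Fin d → ℝ)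
    (hξ : ∀ μ, ξ μ ∈ Set.Icc (0 : Fin d → ℝ) 1) (x : Fin d → ℝ) :
    R476.DM.DD Finset.univ lam ξ x = -localDisc lam ξ x := by
  unfold localDisc R476.DM.DD
  rw [neg_sub]
  congr 1
  refine Finset.sum_congr rfl fun μ _ => ?_
  congr 1
  by_cases hx : ∀ i, ξ μ i ≤ x i
  · rw [if_pos hx, Set.indicator_of_mem]
    exact ⟨(hξ μ).1, hx⟩
  · rw [if_neg hx, Set.indicator_of_notMem]
    exact fun h => hx h.2

theorem lint_eq {m d : ℕ} (lam : Fin m → ℝ) (ξ : Fin m → Fin d → ℝ)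
    (hξ : ∀ μ, ξ μ ∈ Set.Icc (0 : Fin d → ℝ) 1) :
    ∫⁻ y in Set.Icc (0 : Fin d → ℝ) 1, ‖R476.DM.DD Finset.univ lam ξ y‖ₑ =
      eLpNorm (localDisc lam ξ) 1 (volume.restrict (Set.Icc (0 : Fin d → ℝ) 1)) := by
  rw [eLpNorm_one_eq_lintegral_enorm]
  refine lintegral_congr fun y => ?_
  rw [disc_eq lam ξ hξ y, enorm_neg]

/-- The duality. -/
theorem duality (d m : ℕ) (lam : Fin m → ℝ) (ξ : Fin m → Fin d → ℝ)
    (hξ : ∀ μ, ξ μ ∈ Set.Icc (0 : Fin d → ℝ) 1) :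
    cubError (CubeClass d) lam ξ =
      eLpNorm (localDisc lam ξ) 1 (volume.restrict (Set.Icc (0 : Fin d → ℝ) 1)) := by
  obtain ⟨h1, φ, h2, h3, h4⟩ := R476.DM.cube_dual Finset.univ lam ξ fun μ _ => (hξ μ).1
  rw [← lint_eq lam ξ hξ]
  apply le_antisymm
  · unfold cubError
    refine iSup₂_le ?_
    rintro f ⟨φ, g1, g2, rfl⟩
    exact h1 φ g1 g2
  · unfold cubError
    rw [← h4]
    exact le_iSup₂_of_le (fun x => ∫ y in Set.Icc x 1, φ y) ⟨φ, h2, h3, rfl⟩ le_rfl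

theorem zero_sub (d : ℕ) : ZeroClass d ⊆ CubeClass d := by
  rintro f ⟨φ, h1, h2, -, h4⟩
  exact ⟨φ, h1, h2, h4⟩

theorem boundary (d : ℕ) (f : (Fin d → ℝ) → ℝ) (hf : f ∈ ZeroClass d) (x : Fin d → ℝ)
    (hx : x ∈ Set.Icc (0 : Fin d → ℝ) 1) (hi : ∃ i, x i = 0 ∨ x i = 1) : f x = 0 := by
  obtain ⟨φ, h1, h2, h3, rfl⟩ := hf
  obtain ⟨i, hi⟩ := hi
  exact R476.DM.prim_boundary φ h1 1 h2 h3 x hx i hi

theorem optError_le {d : ℕ} (W : Set ((Fin d → ℝ) → ℝ)) (m : ℕ) :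
    optError W m ≤ optErrorEqual W m := by
  unfold optError optErrorEqual
  exact le_iInf₂ fun ξ hξ => iInf_le_of_le (fun _ => 1 / (m : ℝ)) (iInf₂_le_of_le ξ hξ le_rfl)

theorem cubError_mono {m d : ℕ} {W W' : Set ((Fin d → ℝ) → ℝ)} (h : W ⊆ W') (lam : Fin m → ℝ)
    (ξ : Fin m → Fin d → ℝ) : cubError W lam ξ ≤ cubError W' lam ξ := by
  unfold cubError
  exact iSup₂_le fun f hf => le_iSup₂_of_le f (h hf) le_rfl

/-- Lower bound for the class with zero boundary values. -/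
theorem lower_zero (d : ℕ) (hd : 1 ≤ d) : ∃ c : ℝ, 0 < c ∧ ∀ m : ℕ, 2 ≤ m →
    ENNReal.ofReal (c * (Real.log m) ^ (((d : ℝ) - 1) / 2) / m) ≤ optError (ZeroClass d) m := by
  obtain ⟨c, hc, H⟩ := R476.DM.cub_lower d hd 1
  refine ⟨c, hc, fun m hm => ?_⟩
  unfold optError
  refine le_iInf fun lam => le_iInf₂ fun ξ hξ => ?_
  obtain ⟨φ, h1, h2, h3, h4⟩ := H m (by exact_mod_cast hm) (Fin m) Finset.univ lam ξ (by simp)
    fun μ _ => (hξ μ).1
  unfold cubError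
  refine le_iSup₂_of_le (fun x => ∫ y in Set.Icc x 1, φ y) ⟨φ, h1, h2, h3, rfl⟩ ?_
  exact ENNReal.ofReal_le_ofReal (h4.trans (le_abs_self _))

/-- Lower bound for the class on the cube. -/
theorem lower_cube (d : ℕ) (hd : 1 ≤ d) : ∃ c : ℝ, 0 < c ∧ ∀ m : ℕ, 2 ≤ m →
    ENNReal.ofReal (c * (Real.log m) ^ (((d : ℝ) - 1) / 2) / m) ≤ optError (CubeClass d) m := by
  obtain ⟨c, hc, H⟩ := lower_zero d hd
  refine ⟨c, hc, fun m hm => (H m hm).trans ?_⟩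
  unfold optError
  exact iInf_mono fun lam => iInf₂_mono fun ξ hξ => cubError_mono (zero_sub d) lam ξ

/-- Lower bound for the periodic class. -/
theorem lower_per (d : ℕ) (hd : 1 ≤ d) : ∃ c : ℝ, 0 < c ∧ ∀ m : ℕ, 2 ≤ m →
    ENNReal.ofReal (c * (Real.log m) ^ (((d : ℝ) - 1) / 2) / m) ≤
      optError (PeriodicClass d) m := by
  obtain ⟨c, hc, H⟩ := R476.DM.per_lower d hd 1
  refine ⟨c, hc, fun m hm => ?_⟩
  unfold optError
  refine le_iInf fun lam => le_iInf₂ fun ξ hξ => ?_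
  obtain ⟨ψ, h1, h2, h4⟩ := H m (by exact_mod_cast hm) (Fin m) Finset.univ lam ξ (by simp)
    fun μ _ => hξ μ
  unfold cubError
  refine le_iSup₂_of_le (fun x => ∫ y in Set.Icc (0 : Fin d → ℝ) 1,
    ψ y * ∏ i, kernel (x i - y i)) ⟨ψ, h1, h2, rfl⟩ ?_
  exact ENNReal.ofReal_le_ofReal (h4.trans (le_abs_self _))

/-- Upper bound for the class on the cube. -/
theorem upper_cube (d : ℕ) (hd : 1 ≤ d) : ∃ C : ℝ, 0 < C ∧ ∀ m : ℕ, 2 ≤ m →
    optErrorEqual (CubeClass d) m ≤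
      ENNReal.ofReal (C * (Real.log m) ^ (((d : ℝ) - 1) / 2) / m) := by
  obtain ⟨C, hC, H⟩ := H730R2.LU.upper_two d hd
  refine ⟨C, hC, fun m hm => ?_⟩
  obtain ⟨ξ, hξ, hb⟩ := H m hm
  unfold optErrorEqual
  refine (iInf₂_le ξ hξ).trans (le_trans ?_ hb)
  rw [duality d m _ ξ hξ]
  have hp : IsProbabilityMeasure (volume.restrict (Set.Icc (0 : Fin d → ℝ) 1)) := by
    constructor
    rw [Measure.restrict_apply_univ, Real.volume_Icc_pi]
    simp
  have hmeas : Measurable (localDisc (fun _ => 1 / (m : ℝ)) ξ) := by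
    have e : localDisc (fun _ => 1 / (m : ℝ)) ξ =
        fun x => -R476.DM.DD Finset.univ (fun _ => 1 / (m : ℝ)) ξ x := by
      funext x
      rw [disc_eq _ ξ hξ x, neg_neg]
    rw [e]
    exact (R476.DM.measurable_DD _ _ _).neg
  refine (eLpNorm_le_eLpNorm_of_exponent_le (q := 2) (by norm_num)
    hmeas.aestronglyMeasurable).trans (le_of_eq ?_)
  congr 1
  funext x
  unfold localDisc
  rw [← Finset.mul_sum]
  rfl

/-- Upper bound for the class with zero boundary values. -/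
theorem upper_zero (d : ℕ) (hd : 1 ≤ d) : ∃ C : ℝ, 0 < C ∧ ∀ m : ℕ, 2 ≤ m →
    optErrorEqual (ZeroClass d) m ≤
      ENNReal.ofReal (C * (Real.log m) ^ (((d : ℝ) - 1) / 2) / m) := by
  obtain ⟨C, hC, H⟩ := upper_cube d hd
  refine ⟨C, hC, fun m hm => le_trans ?_ (H m hm)⟩
  unfold optErrorEqual
  exact iInf₂_mono fun ξ hξ => cubError_mono (zero_sub d) _ ξ

/-- Upper bound for the periodic class. -/
theorem upper_per (d : ℕ) (hd : 2 ≤ d) : ∃ C : ℝ, 0 < C ∧ ∀ m : ℕ, 2 ≤ m →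
    optErrorEqual (PeriodicClass d) m ≤
      ENNReal.ofReal (C * (Real.log m) ^ (((d : ℝ) - 1) / 2) / m) := by
  obtain ⟨C, hC, H⟩ := R476.DM.per_upper d hd
  refine ⟨C, hC, fun m hm => ?_⟩
  obtain ⟨ξ, h1, h2⟩ := H m hm
  unfold optErrorEqual
  refine (iInf₂_le ξ fun μ => ⟨fun i => (h1 μ i).1, fun i => (h1 μ i).2.le⟩).trans ?_
  unfold cubError
  refine iSup₂_le ?_
  rintro f ⟨ψ, g1, g2, rfl⟩
  refine le_trans (le_of_eq ?_) (h2 ψ g1 g2)
  rw [← ofReal_norm, Real.norm_eq_abs]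
  rfl

/-- **The discrepancy function modulo functions of fewer variables**, in every dimension `d ≥ 1`:
(1) for every `K` there is `c > 0` such that for all `m ≥ 2`, all `N ≤ K m` points of `[0,1]^d`, all
real weights and all sums `g` of functions of fewer variables, the local discrepancy minus `g` is at
least `c (ln m)^((d-1)/2) / m` in absolute value on a subset of `[0,1]^d` of measure at least `c`;
(2) for every `K` there is `c > 0` such that for all `m ≥ 2`, all `N ≤ K m` points and all real weights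
the discrepancy of the box `[u,v)` is at least `c (ln m)^((d-1)/2) / m` in absolute value on a set of
pairs `(u,v)` in `[0,1]^d × [0,1]^d`, `u ≤ v`, of measure at least `c`, and the `L_1` extreme
discrepancy is at least `c (ln m)^((d-1)/2) / m`; if `d ≥ 2` this is the order of the optimal `L_1`
extreme discrepancy of `m` points with equal weights;
(3) for all nodes in `[0,1]^d` and all real weights the error of cubature on the class on the cube is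
the `L_1` norm of the local discrepancy; the functions of the class with zero boundary values belong to
the class on the cube and vanish on the boundary of the cube; and if `d ≥ 2` the optimal error with `m`
nodes is of the order `(ln m)^((d-1)/2) / m` for the periodic class, the class on the cube and its
subclass with zero boundary values, with arbitrary real weights and with equal weights. -/
theorem result (d : ℕ) (hd : 1 ≤ d) :
    (∀ K : ℝ, ∃ c : ℝ, 0 < c ∧ ∀ m : ℕ, 2 ≤ m → ∀ N : ℕ, (N : ℝ) ≤ K * m →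
      ∀ (lam : Fin N → ℝ) (ξ : Fin N → Fin d → ℝ), (∀ μ, ξ μ ∈ Set.Icc (0 : Fin d → ℝ) 1) →
      ∀ g : (Fin d → ℝ) → ℝ, FewerVars g →
        ENNReal.ofReal c ≤ volume {x : Fin d → ℝ | x ∈ Set.Icc (0 : Fin d → ℝ) 1 ∧
          c * (Real.log m) ^ (((d : ℝ) - 1) / 2) / m ≤ |localDisc lam ξ x - g x|}) ∧
    ((∀ K : ℝ, ∃ c : ℝ, 0 < c ∧ ∀ m : ℕ, 2 ≤ m → ∀ N : ℕ, (N : ℝ) ≤ K * m →
      ∀ (lam : Fin N → ℝ) (ξ : Fin N → Fin d → ℝ),
        ENNReal.ofReal c ≤ volume {p : (Fin d → ℝ) × (Fin d → ℝ) | p ∈ Boxes d ∧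
          c * (Real.log m) ^ (((d : ℝ) - 1) / 2) / m ≤ |boxDisc lam ξ p.1 p.2|}) ∧
    (∀ K : ℝ, ∃ c : ℝ, 0 < c ∧ ∀ m : ℕ, 2 ≤ m → ∀ N : ℕ, (N : ℝ) ≤ K * m →
      ∀ (lam : Fin N → ℝ) (ξ : Fin N → Fin d → ℝ),
        ENNReal.ofReal (c * (Real.log m) ^ (((d : ℝ) - 1) / 2) / m) ≤ extreme lam ξ) ∧
    (2 ≤ d → ∃ C : ℝ, 0 < C ∧ ∀ m : ℕ, 2 ≤ m →
      ∃ ξ : Fin m → Fin d → ℝ, (∀ μ, ξ μ ∈ Set.Icc (0 : Fin d → ℝ) 1) ∧
        extreme (fun _ => 1 / (m : ℝ)) ξ ≤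
          ENNReal.ofReal (C * (Real.log m) ^ (((d : ℝ) - 1) / 2) / m))) ∧
    ((∀ (m : ℕ) (lam : Fin m → ℝ) (ξ : Fin m → Fin d → ℝ),
      (∀ μ, ξ μ ∈ Set.Icc (0 : Fin d → ℝ) 1) → cubError (CubeClass d) lam ξ =
        eLpNorm (localDisc lam ξ) 1 (volume.restrict (Set.Icc (0 : Fin d → ℝ) 1))) ∧
    (ZeroClass d ⊆ CubeClass d ∧ ∀ f ∈ ZeroClass d, ∀ x ∈ Set.Icc (0 : Fin d → ℝ) 1,
      (∃ i, x i = 0 ∨ x i = 1) → f x = 0) ∧
    (2 ≤ d → ∃ c C : ℝ, 0 < c ∧ 0 < C ∧ ∀ m : ℕ, 2 ≤ m → ∀ W : Set ((Fin d → ℝ) → ℝ),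
      W = PeriodicClass d ∨ W = CubeClass d ∨ W = ZeroClass d →
        ENNReal.ofReal (c * (Real.log m) ^ (((d : ℝ) - 1) / 2) / m) ≤ optError W m ∧
        optError W m ≤ optErrorEqual W m ∧
        optErrorEqual W m ≤ ENNReal.ofReal (C * (Real.log m) ^ (((d : ℝ) - 1) / 2) / m))) := by
  refine ⟨in_measure d hd, ⟨box_measure d hd, extreme_lower d hd, fun h => extreme_upper d h⟩,
    fun m lam ξ hξ => duality d m lam ξ hξ, ⟨zero_sub d, fun f hf x hx hi =>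
    boundary d f hf x hx hi⟩, ?_⟩
  intro hd2
  have hd1 : 1 ≤ d := by omega
  obtain ⟨c1, hc1, l1⟩ := lower_per d hd1
  obtain ⟨c2, hc2, l2⟩ := lower_cube d hd1
  obtain ⟨c3, hc3, l3⟩ := lower_zero d hd1
  obtain ⟨C1, hC1, u1⟩ := upper_per d hd2
  obtain ⟨C2, hC2, u2⟩ := upper_cube d hd1
  obtain ⟨C3, hC3, u3⟩ := upper_zero d hd1
  refine ⟨min c1 (min c2 c3), max C1 (max C2 C3), by positivity, by positivity, fun m hm W hW => ?_⟩
  have hlog : 0 ≤ (Real.log (m : ℝ)) ^ (((d : ℝ) - 1) / 2) :=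
    Real.rpow_nonneg (Real.log_natCast_nonneg m) _
  have hle : ∀ a b : ℝ, a ≤ b → ENNReal.ofReal (a * (Real.log m) ^ (((d : ℝ) - 1) / 2) / m) ≤
      ENNReal.ofReal (b * (Real.log m) ^ (((d : ℝ) - 1) / 2) / m) := fun a b hab =>
    ENNReal.ofReal_le_ofReal (div_le_div_of_nonneg_right
      (mul_le_mul_of_nonneg_right hab hlog) (Nat.cast_nonneg m))
  rcases hW with rfl | rfl | rfl
  · exact ⟨(hle _ _ (min_le_left _ _)).trans (l1 m hm), optError_le _ m,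
      (u1 m hm).trans (hle _ _ (le_max_left _ _))⟩
  · exact ⟨(hle _ _ ((min_le_right _ _).trans (min_le_left _ _))).trans (l2 m hm),
      optError_le _ m, (u2 m hm).trans (hle _ _ ((le_max_left _ _).trans (le_max_right _ _)))⟩
  · exact ⟨(hle _ _ ((min_le_right _ _).trans (min_le_right _ _))).trans (l3 m hm),
      optError_le _ m, (u3 m hm).trans (hle _ _ ((le_max_right _ _).trans (le_max_right _ _)))⟩

end Pool.Agent.Results.MP_173de9_an.ModuloFewerVariables
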