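import Pool.Agent.R923.SH.S7

/-!
# Most box shapes are as bad as the worst one

For a shape `x ∈ [0,1]^d` consider all the translates `u + [0,x)`, modulo one, of the box `[0,x)`,
and the `L_q` norm `shapeDisc q x` over all positions `u` of the discrepancy of these boxes. For
every finite set of points with arbitrary real weights and every `1 ≤ q ≤ ∞` this norm is, for all
shapes `x` outside of a set of measure `δ`, at least `c_d δ^d` times its supremum over all shapes.
The exceptional set depends on the points (for each single shape `x` there may be points for which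
its translates have a bounded discrepancy).

Consequences: for all shapes outside of a set of measure `δ` the norm is at least `c_d δ^d` times
the optimal `L_q` star discrepancy, and for `q = ∞` at least `c_d δ^d` times the star discrepancy of
the same points. So the star discrepancy of a point set is given, up to a constant, by the
translates of almost every single box. In particular `D(m,d)_∞` has the order of the optimum, over
all `m`-point sets, of the mean over the shapes `x` of `sup_u |disc (u + [0,x))|`: in the question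
for the order of `D(m,d)_∞` the supremum over the shapes may be replaced by the mean.

Proof: in one coordinate, the discrepancy of the intervals `[u, u + s)` is the sum of `s` times the
discrepancy of the projection and of a coboundary `E(u + s) - E(u)`. The norm of a coboundary is a
subadditive even function on the circle. Such a function which is at most `t` on a set of measure
`δ` is at most `(4 / δ + 5) t` everywhere; this follows from the theorem of Steinhaus and the
connectedness of the circle. The coordinates are treated one after the other.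
-/

set_option autoImplicit false

namespace Pool.Agent.Results.MP_173de9_an.TypicalShapes

open MeasureTheory Pool.Agent.R923.SH

/-- For every `d` there is `c > 0` such that for all `m`-point sets `ξ` (taken modulo one), all
`0 < δ ≤ 1` and all `1 ≤ q ≤ ∞`:
(1) with arbitrary real weights, the set of the shapes `x` for which `shapeDisc q x` is less than
`c δ^d shapeDisc q x'` for some shape `x'` has measure at most `δ`;
(2) with arbitrary real weights, the set of the shapes `x` for which `shapeDisc q x` is less than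
`c δ^d` times the optimal weighted `L_q` star discrepancy of `m` points has measure at most `δ`;
(3) for `ξ` in `[0,1)^d`, with arbitrary real weights, the set of the shapes `x` for which
`shapeDisc ∞ x` is less than `c δ^d` times the star discrepancy of `ξ` has measure at most `δ`, and
`shapeDisc ∞ x` is at most `3^d` times the star discrepancy for all shapes;
(4) `c D(m,d)_q ≤ optMean q m d`, and `optMean ∞ m d ≤ 2 * 3^d D(m,d)_∞`. -/
theorem result (d : ℕ) : ∃ c : ℝ, 0 < c ∧
    (∀ (q : ENNReal) (m : ℕ) (lam : Fin m → ℝ) (ξ : Fin m → Fin d → ℝ) (δ : ℝ), 1 ≤ q →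
      0 < δ → δ ≤ 1 →
      volume {x | x ∈ Set.Icc (0 : Fin d → ℝ) 1 ∧ ∃ x' ∈ Set.Icc (0 : Fin d → ℝ) 1,
        shapeDisc q lam ξ x < ENNReal.ofReal (c * δ ^ d) * shapeDisc q lam ξ x'} ≤
        ENNReal.ofReal δ ∧
      volume {x | x ∈ Set.Icc (0 : Fin d → ℝ) 1 ∧
        shapeDisc q lam ξ x < ENNReal.ofReal (c * δ ^ d) * optWeighted q m d} ≤
        ENNReal.ofReal δ ∧
      ((∀ μ j, ξ μ j ∈ Set.Ico (0 : ℝ) 1) →
        volume {x | x ∈ Set.Icc (0 : Fin d → ℝ) 1 ∧
          shapeDisc ⊤ lam ξ x < ENNReal.ofReal (c * δ ^ d) * starDisc ⊤ lam ξ} ≤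
          ENNReal.ofReal δ ∧
        ∀ x ∈ Set.Icc (0 : Fin d → ℝ) 1, shapeDisc ⊤ lam ξ x ≤ 3 ^ d * starDisc ⊤ lam ξ)) ∧
    ∀ m : ℕ, 1 ≤ m →
      (∀ q : ENNReal, 1 ≤ q → ENNReal.ofReal c * optDisc q m d ≤ optMean q m d) ∧
      optMean ⊤ m d ≤ 2 * 3 ^ d * optDisc ⊤ m d := by
  have hK : (0 : ℝ) < 4 * (40 * 2 ^ d) ^ d := by positivity
  set c : ℝ := 1 / (4 * (40 * 2 ^ d) ^ d) with hc
  have hc0 : 0 < c := by positivity
  -- the inequality for the constants
  have hcC : ∀ δ : ℝ, 0 < δ → 2 * (20 * 2 ^ d / δ) ^ d * (c * δ ^ d) ≤ 1 := by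
    intro δ hδ
    have h1 : (20 * (2:ℝ) ^ d) ^ d ≤ (40 * 2 ^ d) ^ d := by
      apply pow_le_pow_left₀ (by positivity)
      have : (0 : ℝ) < 2 ^ d := by positivity
      linarith
    have h2 : 2 * (20 * 2 ^ d / δ) ^ d * (c * δ ^ d) = 2 * (20 * 2 ^ d) ^ d * c := by
      rw [div_pow]
      field_simp
    rw [h2, hc, mul_one_div, div_le_one hK]
    have : (0 : ℝ) < (20 * 2 ^ d) ^ d := by positivity
    linarith
  have hconv : ∀ (δ : ℝ) (a b : ENNReal), 0 < δ → a < ENNReal.ofReal (c * δ ^ d) * b →
      ENNReal.ofReal (2 * (20 * 2 ^ d / δ) ^ d) * a < b := by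
    intro δ a b hδ hab
    have hpos : 0 < 2 * (20 * 2 ^ d / δ) ^ d := by positivity
    calc ENNReal.ofReal (2 * (20 * 2 ^ d / δ) ^ d) * a <
          ENNReal.ofReal (2 * (20 * 2 ^ d / δ) ^ d) * (ENNReal.ofReal (c * δ ^ d) * b) :=
          (ENNReal.mul_lt_mul_iff_right (ENNReal.ofReal_pos.2 hpos).ne' ENNReal.ofReal_ne_top).2 hab
      _ = ENNReal.ofReal (2 * (20 * 2 ^ d / δ) ^ d * (c * δ ^ d)) * b := by
          rw [← mul_assoc, ← ENNReal.ofReal_mul hpos.le]
      _ ≤ 1 * b := by
          gcongr
          rw [← ENNReal.ofReal_one]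
          exact ENNReal.ofReal_le_ofReal (hcC δ hδ)
      _ = b := one_mul b
  refine ⟨c, hc0, fun q m lam ξ δ hq hδ hδ1 => ⟨?_, ?_, fun hξ => ⟨?_, ?_⟩⟩, fun m hm => ⟨?_, ?_⟩⟩
  · refine (measure_mono ?_).trans (shapes hq lam ξ hδ hδ1)
    rintro x ⟨hx, x', hx', h⟩
    exact ⟨hx, x', hx', hconv δ _ _ hδ h⟩
  · refine (measure_mono ?_).trans (shapes hq lam ξ hδ hδ1)
    rintro x ⟨hx, h⟩
    refine ⟨hx, ?_⟩
    by_contra hcon
    push Not at hcon
    obtain ⟨u, hu⟩ := exists_translate q lam ξ hcon
    have h1 : optWeighted q m d ≤ starDisc q lam (fun μ j => Int.fract (ξ μ j - u j)) := by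
      unfold optWeighted
      refine iInf_le_of_le lam (iInf_le_of_le _ (iInf_le_of_le ?_ le_rfl))
      exact fun μ => ⟨fun j => Int.fract_nonneg _, fun j => (Int.fract_lt_one _).le⟩
    exact absurd (hconv δ _ _ hδ h) (not_lt.2 (h1.trans hu))
  · refine (measure_mono ?_).trans (shapes (q := ⊤) le_top lam ξ hδ hδ1)
    rintro x ⟨hx, h⟩
    refine ⟨hx, ?_⟩
    by_contra hcon
    push Not at hcon
    exact absurd (hconv δ _ _ hδ h) (not_lt.2 (star_le lam hξ hcon))
  · exact fun x hx => shape_le_star lam hξ hx
  · intro q hq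
    unfold optMean
    refine le_iInf fun ξ => le_iInf fun _ => ?_
    obtain ⟨u, hu⟩ := exists_translate q (fun _ => 1 / (m : ℝ)) ξ
      (fun x hx => mean_ge hq (fun _ => 1 / (m : ℝ)) ξ hx)
    have h1 : optDisc q m d ≤
        starDisc q (fun _ => 1 / (m : ℝ)) (fun μ j => Int.fract (ξ μ j - u j)) := by
      unfold optDisc
      refine iInf_le_of_le _ (iInf_le_of_le ?_ le_rfl)
      exact fun μ => ⟨fun j => Int.fract_nonneg _, fun j => (Int.fract_lt_one _).le⟩
    have h2 := h1.trans hu
    calc ENNReal.ofReal c * optDisc q m d ≤ ENNReal.ofReal c * (ENNReal.ofReal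
          (4 * (40 * 2 ^ d) ^ d) * ∫⁻ x in Set.Icc (0 : Fin d → ℝ) 1,
            shapeDisc q (fun _ => 1 / (m : ℝ)) ξ x) := by gcongr
      _ = _ := by
          rw [← mul_assoc, ← ENNReal.ofReal_mul hc0.le, hc, one_div_mul_cancel hK.ne',
            ENNReal.ofReal_one, one_mul]
  · unfold optDisc
    simp only [ENNReal.mul_iInf_of_ne (a := 2 * (3 : ENNReal) ^ d) (by simp) (by finiteness)]
    refine le_iInf fun ξ => le_iInf fun hξ => ?_
    unfold optMean
    refine iInf_le_of_le ξ (iInf_le_of_le hξ ?_)
    calc ∫⁻ x in Set.Icc (0 : Fin d → ℝ) 1, shapeDisc ⊤ (fun _ => 1 / (m : ℝ)) ξ x ≤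
          ∫⁻ _ in Set.Icc (0 : Fin d → ℝ) 1, 2 * 3 ^ d * starDisc ⊤ (fun _ => 1 / (m : ℝ)) ξ :=
          setLIntegral_mono measurable_const fun x hx =>
            shape_le_star' hm (fun μ j => cube_iff.1 (hξ μ) j) hx
      _ = _ := by
          rw [lintegral_const]
          have : (volume.restrict (Set.Icc (0 : Fin d → ℝ) 1)) Set.univ = 1 :=
            (measure_univ : Cu d Set.univ = 1)
          rw [this, mul_one]

end Pool.Agent.Results.MP_173de9_an.TypicalShapes
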